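import Pool.Agent.Lib_helper49.RT.Amp

/-!
# Rubin's conjecture for all sets `T` meeting a set of places with divergent sum of `1 / N v`
-/

namespace Pool.Agent.Results.MP_dd9835_nt.LargeT

open Pool.Agent.RSK Pool.Agent.RS3 Pool.Agent.RT NumberField IsDedekindDomain

/-- For all data `H/F`, `S`, `T`, `r`, `w_i` as in Rubin's conjecture, the conclusion of Stark's
conjecture over `ℚ` is equivalent to the existence of a set `C` of places with
`∑_{v ∈ C} 1 / N v = ∞` such that the conclusion of Rubin's integral conjecture holds for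
`(S, T ∪ {v})` for every `T` as in the conjecture and every `v ∈ C`, `v ∉ T`. For the abelian
extensions of `p`-power degree of Kummer type (`p = 2` included) such a set `C` exists
unconditionally, for all `S` and `r`. -/
theorem result {F H : Type} [Field F] [NumberField F] [Field H] [NumberField H] [Algebra F H]
    [IsGalois F H] {G : Type} [CommGroup G] [Fintype G] (ι : G ≃* (H ≃ₐ[F] H))
    (S T : Finset (HeightOneSpectrum (𝓞 F))) {r : ℕ} (w : Fin r → Pl H)
    (fr : HeightOneSpectrum (𝓞 F) → G) (hD : Data ι S T r w fr) :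
    (StarkQ ι S T w fr ↔ RubinMost ι S w fr) ∧
    ∀ p : ℕ, p.Prime → IsPGroup p G →
      (KumP p F H ∨ ∀ N : Subgroup G, IsCyclic (G ⧸ N) → Hol3 p N.index F (Kf ι N)) →
        RubinMost ι S w fr :=
  ⟨stark_iff hD, fun _ hp hG hext => rubin_most hD hp hG hext⟩

end Pool.Agent.Results.MP_dd9835_nt.LargeT
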