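import Pool.Agent.Lib_helper29.RBP.Main

/-!
# Rubin's conjecture for extensions whose characters induce differences of permutation characters
-/

namespace Pool.Agent.Results.MP_dd9835_nt.PermCharacters

open Pool.Agent.RB NumberField IsDedekindDomain

/-- Let `F₀ ⊆ F ⊆ H ⊆ L` be number fields, `H/F` abelian with group `G` and `L/F₀` Galois. Suppose
that every character of `G`, inflated to `Gal(L/F)`, induces on `Gal(L/F₀)` the difference of two
permutation characters (`PermInd`), or that `Gal(L/F₀)` is a product of symmetric groups (`SymP`), or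
that `H/F₀` is Galois with group `G ⋊ (ℤ/m)ˣ` (`HolT`), or that `H/F` is a Kummer extension of
arbitrary exponent `n` with `F = F₀(ζ_n)` and radicands in `F₀` (`KumN`). Then for all `S`, `r`, `w_i`
as in Rubin's conjecture there is a set `C` of finite places of `F` outside `S` with
`∑_{v ∈ C} 1 / N v = ∞` such that Rubin's conjecture holds for `(S, T ∪ {v})` for all `T` as in the
conjecture and all `v ∈ C`, `v ∉ T`. -/
theorem result {F₀ F H L : Type} [Field F₀] [NumberField F₀] [Field F] [NumberField F] [Field H]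
    [NumberField H] [Field L] [NumberField L] [Algebra F₀ F] [Algebra F₀ H] [Algebra F₀ L]
    [Algebra F H] [Algebra F L] [Algebra H L] [IsScalarTower F₀ F H] [IsScalarTower F₀ F L]
    [IsScalarTower F H L] [IsGalois F H] [IsGalois F₀ L] {G : Type} [CommGroup G] [Fintype G]
    (ι : MulEquiv G (AlgEquiv F H H))
    (S : Finset (InfinitePlace F ⊕ HeightOneSpectrum (RingOfIntegers F)))
    (T₀ : Finset (HeightOneSpectrum (RingOfIntegers F))) {r : ℕ}
    (w : Fin r → InfinitePlace H ⊕ HeightOneSpectrum (RingOfIntegers H))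
    (fr : HeightOneSpectrum (RingOfIntegers F) → G) (hD : Data ι S T₀ w fr)
    (h : PermInd F₀ L ι ∨ SymP F₀ L ∨ HolT F₀ F H ∨ KumN F₀ F H) :
    ∃ C : Set (HeightOneSpectrum (RingOfIntegers F)), (∀ v ∈ C, Sum.inr v ∉ S) ∧
      ¬ Summable (fun v : C => (Ideal.absNorm v.1.asIdeal : ℝ)⁻¹) ∧
      ∀ (T : Finset (HeightOneSpectrum (RingOfIntegers F)))
        (v : HeightOneSpectrum (RingOfIntegers F)) (hv : v ∉ T), Data ι S T w fr → v ∈ C →
          RubinOn ⊤ ι S (Finset.cons v T hv) w fr :=
  most hD h

end Pool.Agent.Results.MP_dd9835_nt.PermCharacters
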